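import Pool.Agent.H50.BB.Fin

/-!
# MP_4b98c1: the recentred maximum of branching Brownian motion with angle-dependent branching converges in distribution

The particle system (definitions in `Pool/Agent/H50/BB/Defs.lean`).  Particles are words in two letters (`List Bool`); the root is the empty word.  Every word `u` carries a mark `ξ u`: a planar Brownian path (a pair of independent
real Brownian paths) and an exponential variable of mean one; all marks are independent.  A particle born at the point `x` at time `s` moves along `x` plus its path; it splits into two when the accumulated rate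
`∫ b(arg)` along its path (`clock`) reaches its exponential variable (at the age `tau`).  `Alive b u ω 0 t`: the particle `u` is alive at time `t` when the root starts at the origin at time `0`; `pos b u ω 0 t` is its position.
-/

open MeasureTheory ProbabilityTheory Set Filter Topology
open scoped NNReal

namespace Pool.Agent.Results.MP_4b98c1_pr.RecentredMaximum

open Pool.H50.BB Pool.Agent.H4.BM

/-- the hypotheses (A1) and (A2) -/
structure Hyp (b : ℝ → ℝ) (α β : ℝ) : Prop where
  cont : Continuous b
  per : Function.Periodic b (2 * Real.pi)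
  nonneg : ∀ θ, 0 ≤ b θ
  max : ∀ θ ∈ Icc (-Real.pi) Real.pi, θ ≠ 0 → b θ < b 0
  asy : (fun θ => b θ - (1 - β * |θ| ^ α)) =O[𝓝 0] fun θ => θ ^ 2

/-- `M_t`: the maximal norm of the particles alive at time `t` (the root starts at the origin) -/
noncomputable def maxNorm (b : ℝ → ℝ) (ω : Cfg) (t : ℝ) : ℝ :=
  sSup ((fun u => ‖pos b u ω 0 t‖) '' {u | Alive b u ω 0 t})

/-- the constant `ϑ₁` -/
noncomputable def vartheta (α β lam0 : ℝ) : ℝ :=
  lam0 * ((2 + α) / (2 - α)) * (β ^ (2 / (2 + α)) / 2 ^ (2 * α / (2 + α)))

/-- the centring `m(t)` -/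
noncomputable def centring (α β lam0 t : ℝ) : ℝ :=
  √2 * t - vartheta α β lam0 / √2 * t ^ ((2 - α) / (2 + α)) -
    (3 / (2 * √2) - α / (2 * √2 * (2 + α))) * Real.log t

/-- For every `α ∈ (2/3, 2)` there is `λ₀ > 0` such that for all `β > 0`, every rate `b` with (A1), (A2) and every realisation of the branching system on a probability space, the set of particles alive at time `t ≥ 0` is almost surely
finite and nonempty, and `M_t - m(t)` converges in distribution, as `t → ∞`, to a probability law on the real line. -/
theorem result (α : ℝ) (hα : 2 / 3 < α) (hα2 : α < 2) :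
    ∃ lam0 : ℝ, 0 < lam0 ∧ ∀ (β : ℝ) (b : ℝ → ℝ), 0 < β → Hyp b α β →
      ∀ (Ω : Type*) [MeasurableSpace Ω] (P : Measure Ω) [IsProbabilityMeasure P] (W : Measure Pth)
        (ξ : List Bool → Ω → P2 × ℝ),
        -- `W` is Wiener measure on the space of continuous paths started at `0`
        IsPreBrownianReal (fun (t : ℝ≥0) (A : Pth) => A t) W →
        -- independent marks: a pair of independent Brownian paths and an exponential variable of mean one
        (∀ u, Measurable (ξ u)) → iIndepFun ξ P → (∀ u, P.map (ξ u) = (W.prod W).prod (expMeasure 1)) →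
        (∀ t, 0 ≤ t → ∀ᵐ ω ∂P, {u | Alive b u (fun v => ξ v ω) 0 t}.Finite ∧
          {u | Alive b u (fun v => ξ v ω) 0 t}.Nonempty) ∧
        ∃ (μ : Measure ℝ) (_ : IsProbabilityMeasure μ),
          TendstoInDistribution (fun t ω => maxNorm b (fun v => ξ v ω) t - centring α β lam0 t) atTop
            (id : ℝ → ℝ) (fun _ => P) μ := by
  obtain ⟨lam, ρ, C, φ, G⟩ := exists_GS (α := α) (by linarith) hα2
  refine ⟨2 ^ (α / (2 + α)) * lam, mul_pos (by positivity) G.lam_pos, ?_⟩
  intro β b hβ h' Ω _ P _ W ξ hW hm hi hl
  have h : A12 b α β := ⟨h'.cont, h'.per, h'.nonneg, h'.max, h'.asy⟩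
  have hb : Rate b := a12_rate (by linarith) h
  have hpp := pp_map hW hm hi hl
  have hξ : Measurable fun ω u => ξ u ω := measurable_pi_iff.2 hm
  refine ⟨fun t ht => ?_, ?_⟩
  · have h1 := alive_finite hb ht (0 : ℂ)
    have h2 := alive_nonempty hb ht (0 : ℂ)
    rw [← hpp] at h1 h2
    filter_upwards [ae_of_ae_map hξ.aemeasurable h1, ae_of_ae_map hξ.aemeasurable h2] with ω g1 g2
    exact ⟨g1, g2⟩
  · obtain ⟨μ, hμ, hT⟩ := main hα hα2 hβ h G hW hm hi hl
    refine ⟨μ, hμ, ?_⟩
    have e : (fun (t : ℝ) (ω : Ω) => maxNorm b (fun v => ξ v ω) t - centring α β (2 ^ (α / (2 + α)) * lam) t) =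
        fun t ω => Mx b (fun u => ξ u ω) t - mm α β lam t := by
      funext t ω
      rw [mm_eq (by linarith) hα2 hβ t]
      rfl
    rw [e]
    exact hT

end Pool.Agent.Results.MP_4b98c1_pr.RecentredMaximum
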